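import Mathlib

/-!
# Regular local rings of dimension two in which `-1` is a square and `2` is not a unit

Let `R` be a two-dimensional regular local domain with regular parameters `π, x`, where `π` is prime,
containing `i` with `i² = -1` and `2 = -i π²`. Then `2x` is a sum of three squares and not of two,
although every element of the fraction field is a sum of two squares.
-/

set_option autoImplicit false

namespace Pool.Agent.T6.H24.Pyth

open Ideal

section abstract

variable {R : Type} [CommRing R] [IsDomain R] [IsLocalRing R]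

/-- A Noetherian local domain whose maximal ideal is generated by a prime element and one more
element outside the ideal it generates has dimension two. -/
theorem krullDim_eq_two [IsNoetherianRing R] {p x : R}
    (hm : IsLocalRing.maximalIdeal R = span {p, x}) (hp : Prime p) (hx : ¬ p ∣ x) :
    ringKrullDim R = 2 := by
  apply le_antisymm
  · refine le_trans (ringKrullDim_le_spanFinrank_maximalIdeal R) ?_
    have h1 : (IsLocalRing.maximalIdeal R).spanFinrank ≤ 2 := by
      rw [hm]
      refine le_trans (Submodule.spanFinrank_span_le_ncard_of_finite (by simp)) ?_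
      exact le_trans (Set.ncard_insert_le _ _) (by simp)
    exact_mod_cast h1
  · have hxm : x ∈ IsLocalRing.maximalIdeal R := by
      rw [hm]; exact subset_span (by simp)
    have h1 := ringKrullDim_quotient_succ_le_of_nonZeroDivisor (R := R) (r := p)
      (mem_nonZeroDivisors_of_ne_zero hp.ne_zero)
    have hprime : (span {p}).IsPrime := (span_singleton_prime hp.ne_zero).2 hp
    have hx0 : Ideal.Quotient.mk (span {p}) x ≠ 0 := by
      intro h
      exact hx (mem_span_singleton.1 (Ideal.Quotient.eq_zero_iff_mem.1 h))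
    have h2 := ringKrullDim_quotient_succ_le_of_nonZeroDivisor (R := R ⧸ span {p})
      (r := Ideal.Quotient.mk (span {p}) x) (mem_nonZeroDivisors_of_ne_zero hx0)
    have hne : span {Ideal.Quotient.mk (span {p}) x} ≠ ⊤ := by
      intro h
      have h3 : (1 : R ⧸ span {p}) ∈ span {Ideal.Quotient.mk (span {p}) x} := by
        rw [h]; trivial
      rw [mem_span_singleton] at h3
      obtain ⟨y, hy⟩ := h3
      obtain ⟨y, rfl⟩ := Ideal.Quotient.mk_surjective y
      rw [← map_mul, ← map_one (Ideal.Quotient.mk (span {p})), Ideal.Quotient.eq] at hy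
      have h4 : x * y ∈ IsLocalRing.maximalIdeal R := Ideal.mul_mem_right _ _ hxm
      have h5 : (1 : R) - x * y ∈ IsLocalRing.maximalIdeal R := by
        have : span {p} ≤ IsLocalRing.maximalIdeal R := by
          rw [hm]; exact span_mono (by simp)
        exact this hy
      have h6 : (1 : R) ∈ IsLocalRing.maximalIdeal R := by
        have := add_mem h5 h4
        rwa [sub_add_cancel] at this
      exact (IsLocalRing.maximalIdeal.isMaximal R).ne_top ((eq_top_iff_one _).2 h6)
    have : Nontrivial ((R ⧸ span {p}) ⧸ span {Ideal.Quotient.mk (span {p}) x}) :=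
      Ideal.Quotient.nontrivial_iff.mpr hne
    have h3 := ringKrullDim_nonneg_of_nontrivial
      (R := (R ⧸ span {p}) ⧸ span {Ideal.Quotient.mk (span {p}) x})
    have h4 : (1 : WithBot ℕ∞) ≤ ringKrullDim (R ⧸ span {p}) := by
      refine le_trans ?_ h2
      calc (1 : WithBot ℕ∞) = 0 + 1 := by simp
        _ ≤ _ := by gcongr
    calc (2 : WithBot ℕ∞) = 1 + 1 := by norm_num
      _ ≤ ringKrullDim (R ⧸ span {p}) + 1 := by gcongr
      _ ≤ _ := h1

theorem not_two_squares {p x i : R}
    (hm : IsLocalRing.maximalIdeal R = span {p, x}) (hp : Prime p) (hx : ¬ p ∣ x)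
    (hi : i * i = -1) (h2 : (2 : R) = -i * p ^ 2) (a b : R) : 2 * x ≠ a ^ 2 + b ^ 2 := by
  intro h
  have h2i : 2 * i = p ^ 2 := by
    rw [h2]; linear_combination (-p ^ 2) * hi
  -- `u = a + i b`
  have hu2 : p ∣ (a + i * b) ^ 2 := by
    have : (a + i * b) ^ 2 = p * (p * (-i * (x + i * (a + i * b) * b))) := by
      linear_combination (-b ^ 2) * hi - h + (x + i * (a + i * b) * b) * h2 +
        (i * b ^ 2 * 0) * hi + 0 * h2i + (-2 * b ^ 2 + 2 * b ^ 2 + 0) * hi
    exact this ▸ dvd_mul_right _ _
  obtain ⟨u, hu⟩ := hp.dvd_of_dvd_pow hu2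
  have h3 : u * (u - p * b) = -i * x := by
    have hp2 : p ^ 2 ≠ 0 := pow_ne_zero _ hp.ne_zero
    apply mul_left_cancel₀ hp2
    have hv : a - i * b = p * (u - p * b) := by
      linear_combination hu - b * h2i
    have huv : (a + i * b) * (a - i * b) = 2 * x := by
      rw [h]; linear_combination (-b ^ 2) * hi
    rw [hu, hv] at huv
    linear_combination huv + x * h2
  have hpm : p ∈ IsLocalRing.maximalIdeal R := by rw [hm]; exact subset_span (by simp)
  have hxm : x ∈ IsLocalRing.maximalIdeal R := by rw [hm]; exact subset_span (by simp)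
  have hum : u ∈ IsLocalRing.maximalIdeal R := by
    have : u ^ 2 ∈ IsLocalRing.maximalIdeal R := by
      have h4 : u ^ 2 = -i * x + (u * b) * p := by linear_combination h3
      rw [h4]
      exact add_mem (Ideal.mul_mem_left _ _ hxm) (Ideal.mul_mem_left _ _ hpm)
    exact (IsLocalRing.maximalIdeal.isMaximal R).isPrime.mem_of_pow_mem _ this
  rw [hm, mem_span_pair] at hum
  obtain ⟨α, β, hαβ⟩ := hum
  have h5 : p ∣ x * (β ^ 2 * x + i) := by
    refine ⟨-α * β * x + u * b - α * u, ?_⟩
    have h6 : u = α * p + β * x := hαβ.symm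
    have h7 : u * (u - p * b) = -i * x := h3
    calc x * (β ^ 2 * x + i) = (β * x) * (β * x) - (-i * x) := by ring
      _ = (u - α * p) * (u - α * p) - u * (u - p * b) := by rw [h7, h6]; ring
      _ = p * (-α * (u - α * p) + u * b - α * u) := by ring
      _ = p * (-α * β * x + u * b - α * u) := by rw [h6]; ring
  rcases hp.dvd_or_dvd h5 with h6 | h6
  · exact hx h6
  · have h7 : β ^ 2 * x + i ∈ IsLocalRing.maximalIdeal R := by
      obtain ⟨c, hc⟩ := h6
      rw [hc]; exact Ideal.mul_mem_right _ _ hpm
    have h8 : i ∈ IsLocalRing.maximalIdeal R := by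
      have := sub_mem h7 (Ideal.mul_mem_left _ (β ^ 2) hxm)
      simpa using this
    have h9 : (1 : R) ∈ IsLocalRing.maximalIdeal R := by
      have := Ideal.mul_mem_left _ (-i) h8
      have h10 : -i * i = 1 := by linear_combination -hi
      rwa [h10] at this
    exact (IsLocalRing.maximalIdeal.isMaximal R).ne_top ((eq_top_iff_one _).2 h9)

/-- The Pythagoras numbers of `R` and of its fraction field differ: every element of the fraction
field is a sum of two squares, and `2x` is a sum of squares but not of two squares in `R`. -/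
theorem pythagoras_ne {p x i : R}
    (hm : IsLocalRing.maximalIdeal R = span {p, x}) (hp : Prime p) (hx : ¬ p ∣ x)
    (hi : i * i = -1) (h2 : (2 : R) = -i * p ^ 2) :
    ¬ (∀ (K : Type) [Field K] [Algebra R K] [IsFractionRing R K], ∀ n : ℕ,
        ((∀ x : R, IsSumSq x → ∃ f : Fin n → R, x = ∑ i, f i ^ 2) ↔
          (∀ x : K, IsSumSq x → ∃ f : Fin n → K, x = ∑ i, f i ^ 2))) := by
  intro H
  have h := (H (FractionRing R) 2).2 ?_
  · have hs : IsSumSq (2 * x : R) := by
      have h1 : (2 * x : R) = (1 + x) * (1 + x) + (i * i + (i * x) * (i * x)) := by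
        linear_combination (-1 - x ^ 2) * hi
      rw [h1]
      exact (IsSumSq.mul_self _).add ((IsSumSq.mul_self _).add (IsSumSq.mul_self _))
    obtain ⟨f, hf⟩ := h _ hs
    rw [Fin.sum_univ_two] at hf
    exact not_two_squares hm hp hx hi h2 _ _ hf
  · intro y _
    have h20 : (2 : FractionRing R) ≠ 0 := by
      intro h0
      have h1 : (algebraMap R (FractionRing R)) 2 = 0 := by rw [map_ofNat]; exact h0
      have h3 : (2 : R) = 0 :=
        IsFractionRing.injective R (FractionRing R) (by rw [map_zero]; exact h1)
      rw [h2] at h3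
      rcases mul_eq_zero.1 h3 with h4 | h4
      · rw [neg_eq_zero] at h4
        rw [h4, mul_zero] at hi
        exact one_ne_zero (neg_eq_zero.1 hi.symm)
      · exact hp.ne_zero (pow_eq_zero_iff (two_ne_zero)|>.1 h4)
    have hi' : (algebraMap R (FractionRing R) i) ^ 2 = -1 := by
      rw [sq, ← map_mul, hi, map_neg, map_one]
    refine ⟨![(y + 1) / 2, algebraMap R (FractionRing R) i * ((y - 1) / 2)], ?_⟩
    rw [Fin.sum_univ_two]
    simp only [Matrix.cons_val_zero, Matrix.cons_val_one]
    rw [mul_pow, hi']
    field_simp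
    ring

end abstract

end Pool.Agent.T6.H24.Pyth
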